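import Pool.Agent.H70.RK.T2
import Pool.Agent.H32.RC.DNF

/-!
# GTE: gates for the answers of the instances (MP_0f8dca_lc, board nbk_modules)
-/

set_option autoImplicit false

namespace Pool.Agent.H47.RK

open Pool.Agent.H6.NB Pool.Agent.H70.OQ Pool.Agent.H70.RK
open Pool.Agent.H32.RC (wl mem_wl wl_len inst_inj)

/-- A gate from the list of its subgates (outermost list first). -/
def gcons {T : Type} : (m : ℕ) → List (Gt T m) → Gt T (m + 1)
  | 0, L => L
  | m + 1, L => gcons (T := List T) m L

theorem gval_gcons (m : ℕ) : ∀ {T : Type} (v : T → Bool) (L : List (Gt T m)),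
    gval v (m + 1) (gcons m L) = L.any fun G => !gval v m G := by
  induction m with
  | zero => intro T v L; rfl
  | succ m ih => intro T v L; exact ih (T := List T) _ L

theorem mem_gbs_gcons (m : ℕ) : ∀ {T : Type} (L : List (Gt T m)) (x : T),
    x ∈ gbs (m + 1) (gcons m L) ↔ ∃ G ∈ L, x ∈ gbs m G := by
  induction m with
  | zero =>
    intro T L x
    have h0 : ∀ M : List T, [M].flatten = M := fun M => by simp
    have h1 : gbs (T := T) 1 (gcons 0 L) = (L : List T) := h0 L
    rw [h1]
    constructor
    · intro h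
      exact ⟨x, h, List.mem_singleton.2 rfl⟩
    · rintro ⟨G, hG, hx⟩
      have h2 : x = G := List.mem_singleton.1 hx
      subst h2
      exact hG
  | succ m ih =>
    intro T L x
    have h1 : x ∈ gbs (T := T) (m + 1 + 1) (gcons (m + 1) L) ↔
        ∃ l ∈ gbs (T := List T) (m + 1) (gcons m L), x ∈ l := List.mem_flatten
    rw [h1]
    constructor
    · rintro ⟨l, hl, hx⟩
      obtain ⟨G, hG, hl'⟩ := (ih (T := List T) L l).1 hl
      exact ⟨G, hG, List.mem_flatten.2 ⟨l, hl', hx⟩⟩
    · rintro ⟨G, hG, hx⟩
      obtain ⟨l, hl, hx'⟩ := List.mem_flatten.1 hx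
      exact ⟨l, (ih (T := List T) L l).2 ⟨G, hG, hl⟩, hx'⟩

theorem gsz_gcons (s m : ℕ) : ∀ {T : Type} (L : List (Gt T m)), L.length ≤ s →
    (∀ G ∈ L, gsz s m G) → gsz s (m + 1) (gcons m L) := by
  induction m with
  | zero =>
    intro T L hL _
    refine ⟨trivial, ?_⟩
    intro l hl
    have h2 : l = L := List.mem_singleton.1 hl
    rw [h2]
    exact hL
  | succ m ih =>
    intro T L hL h
    refine ⟨ih (T := List T) L hL fun G hG => (h G hG).1, ?_⟩
    intro l hl
    obtain ⟨G, hG, hl'⟩ := (mem_gbs_gcons m (T := List T) L l).1 hl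
    exact (h G hG).2 l hl'

/-- Negate the leaves. -/
def dneg : DT → DT
  | .leaf b => .leaf (!b)
  | .node w l r => .node w (dneg l) (dneg r)

theorem dneg_eval (O : List Bool → Bool) : ∀ T : DT, (dneg T).eval O = !(T.eval O)
  | .leaf _ => rfl
  | .node w l r => by
      simp only [dneg, DT.eval, dneg_eval O l, dneg_eval O r]
      split_ifs <;> rfl

theorem dneg_depth : ∀ T : DT, (dneg T).depth = T.depth
  | .leaf _ => rfl
  | .node w l r => by simp only [dneg, DT.depth, dneg_depth l, dneg_depth r]

theorem dneg_short (m : ℕ) : ∀ T : DT, T.Short m → (dneg T).Short m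
  | .leaf _, _ => trivial
  | .node _ l r, ⟨h1, h2, h3⟩ => ⟨h1, dneg_short m l h2, dneg_short m r h3⟩

/-- The gate of a family of trees. -/
def mk (t : ℕ) : (k : ℕ) → Bool → (List (List Bool) → DT) → Gt DT k
  | 0, b, τ => if b then τ [] else dneg (τ [])
  | k + 1, b, τ => gcons k ((wl t).map fun w => mk t k (!b) fun ws => τ (w :: ws))

theorem mk_val (t : ℕ) (O : List Bool → Bool) : ∀ (k : ℕ) (b : Bool) (τ : List (List Bool) → DT),
    gval (fun T : DT => T.eval O) k (mk t k b τ) = true ↔
      if b then Alt (fun w => w.length ≤ t) true k fun ws => (τ ws).eval O = true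
      else ¬ Alt (fun w => w.length ≤ t) false k fun ws => (τ ws).eval O = true
  | 0, b, τ => by
      cases b
      · change (dneg (τ [])).eval O = true ↔ ¬ (τ []).eval O = true
        rw [dneg_eval]
        simp
      · exact Iff.rfl
  | k + 1, b, τ => by
      have h1 : gval (fun T : DT => T.eval O) (k + 1) (mk t (k + 1) b τ) = true ↔
          ∃ w : List Bool, w.length ≤ t ∧
            ¬ gval (fun T : DT => T.eval O) k (mk t k (!b) fun ws => τ (w :: ws)) = true := by
        change gval (fun T : DT => T.eval O) (k + 1)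
          (gcons k ((wl t).map fun w => mk t k (!b) fun ws => τ (w :: ws))) = true ↔ _
        rw [gval_gcons, List.any_eq_true]
        constructor
        · rintro ⟨G, hG, hv⟩
          obtain ⟨w, hw, rfl⟩ := List.mem_map.1 hG
          refine ⟨w, (mem_wl t w).1 hw, ?_⟩
          simpa using hv
        · rintro ⟨w, hw, hv⟩
          refine ⟨_, List.mem_map.2 ⟨w, (mem_wl t w).2 hw, rfl⟩, ?_⟩
          simpa using hv
      rw [h1]
      cases b
      · simp only [Bool.false_eq_true, if_false]
        constructor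
        · rintro ⟨w, hw, hv⟩ h
          exact hv ((mk_val t O k true _).2 (h w hw))
        · intro h
          by_contra h2
          apply h
          intro w hw
          by_contra h3
          exact h2 ⟨w, hw, fun h4 => h3 ((mk_val t O k true _).1 h4)⟩
      · simp only [if_true]
        constructor
        · rintro ⟨w, hw, hv⟩
          refine ⟨w, hw, ?_⟩
          by_contra h3
          exact hv ((mk_val t O k false _).2 (by simpa using h3))
        · rintro ⟨w, hw, hv⟩
          refine ⟨w, hw, fun h4 => ?_⟩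
          have h5 := (mk_val t O k false _).1 h4
          simp only [Bool.false_eq_true, if_false] at h5
          exact h5 hv

theorem mk_gsz (t : ℕ) : ∀ (k : ℕ) (b : Bool) (τ : List (List Bool) → DT),
    gsz (2 ^ (t + 1)) k (mk t k b τ)
  | 0, _, _ => trivial
  | k + 1, b, τ => by
      refine gsz_gcons _ k _ ?_ ?_
      · rw [List.length_map]
        have := wl_len t
        omega
      · intro G hG
        obtain ⟨w, -, rfl⟩ := List.mem_map.1 hG
        exact mk_gsz t k _ _

theorem mk_gbs (t : ℕ) : ∀ (k : ℕ) (b : Bool) (τ : List (List Bool) → DT), ∀ T ∈ gbs k (mk t k b τ),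
    ∃ ws : List (List Bool), ws.length = k ∧ (∀ w ∈ ws, w.length ≤ t) ∧ (T = τ ws ∨ T = dneg (τ ws))
  | 0, b, τ => by
      intro T hT
      have h1 : T = mk t 0 b τ := List.mem_singleton.1 hT
      refine ⟨[], rfl, by simp, ?_⟩
      rw [h1]
      cases b
      · exact Or.inr rfl
      · exact Or.inl rfl
  | k + 1, b, τ => by
      intro T hT
      obtain ⟨G, hG, hT'⟩ := (mem_gbs_gcons k _ T).1 hT
      obtain ⟨w, hw, rfl⟩ := List.mem_map.1 hG
      obtain ⟨ws, h1, h2, h3⟩ := mk_gbs t k _ _ T hT'
      refine ⟨w :: ws, by rw [List.length_cons, h1], ?_, h3⟩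
      intro v hv
      rcases List.mem_cons.1 hv with rfl | hv'
      · exact (mem_wl t v).1 hw
      · exact h2 v hv'

/-- (GTE) -/
theorem pf_GTE (hCOD : Pool.Agent.H6.NB.T_COD) : T_GTE := by
  classical
  intro k V hk
  have key : ∀ s : List Bool, ∃ (G : Gt DT k) (t : ℕ), (t + 1) ^ 2 ≤ s.length + 1 ∧
      gsz (2 ^ (t + 1)) k G ∧ (∀ T ∈ gbs k G, T.depth ≤ t) ∧ (∀ T ∈ gbs k G, T.Short t) ∧
      ∀ O, ans V O s ↔ gval (fun T => T.eval O) k G = true := by
    intro s
    by_cases h : ∃ (i : ℕ) (x : List Bool), s = inst (V i).c i x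
    · obtain ⟨i, x, hs⟩ := h
      refine ⟨mk (x.length ^ (V i).c + (V i).c) k true ((V i).tree x), x.length ^ (V i).c + (V i).c, ?_,
        mk_gsz _ _ _ _, ?_, ?_, ?_⟩
      · have h1 : s.length = _ := congrArg List.length hs
        rw [h1]
        unfold inst
        rw [hCOD.2]
        omega
      · intro T hT
        obtain ⟨ws, h1, h2, h3⟩ := mk_gbs _ _ _ _ T hT
        have h4 := (V i).depth_le x ws h1 h2
        rcases h3 with rfl | rfl
        · exact h4
        · rw [dneg_depth]
          exact h4
      · intro T hT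
        obtain ⟨ws, h1, h2, h3⟩ := mk_gbs _ _ _ _ T hT
        have h4 := (V i).short x ws h1 h2
        rcases h3 with rfl | rfl
        · exact h4
        · exact dneg_short _ _ h4
      · intro O
        rw [mk_val]
        simp only [if_true]
        constructor
        · rintro ⟨j, y, hj, hy⟩
          obtain ⟨h1, h2⟩ := inst_inj hCOD (hs.symm.trans hj)
          subst h1
          subst h2
          exact hy
        · intro h1
          exact ⟨i, x, hs, h1⟩
    · obtain ⟨k', rfl⟩ : ∃ k', k = k' + 1 := ⟨k - 1, by omega⟩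
      refine ⟨gcons k' [], 0, by omega, gsz_gcons _ _ _ (by simp) (by simp), ?_, ?_, ?_⟩
      · intro T hT
        obtain ⟨G, hG, -⟩ := (mem_gbs_gcons k' _ T).1 hT
        exact absurd hG List.not_mem_nil
      · intro T hT
        obtain ⟨G, hG, -⟩ := (mem_gbs_gcons k' _ T).1 hT
        exact absurd hG List.not_mem_nil
      · intro O
        rw [gval_gcons]
        constructor
        · rintro ⟨i, x, hs, -⟩
          exact absurd ⟨i, x, hs⟩ h
        · intro h1
          simp at h1
  choose G t h1 h2 h3 h4 h5 using key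
  exact ⟨G, t, ⟨h1, h2, h3, h4, h5⟩⟩

end Pool.Agent.H47.RK
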