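import Pool.Agent.H32.RK.TargetsB

/-!
# LIN: a combination which is large at several places
-/

set_option autoImplicit false

open Finset NumberField Pool.Agent.H32.RQ

namespace Pool.Agent.H47.RK

open Pool.Agent.H32.RK

/-- the Vandermonde matrix of a list of integers -/
noncomputable def vm {m T : ℕ} (f : Fin m → Fin (T + 1)) : Matrix (Fin m) (Fin m) ℂ :=
  Matrix.vandermonde fun j => (((f j : Fin (T + 1)) : ℕ) : ℂ)

/-- the constant -/
noncomputable def cst (m T : ℕ) : ℝ :=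
  ∑ f : Fin m → Fin (T + 1), ∑ i : Fin m, ∑ j : Fin m, ‖(vm f)⁻¹ i j‖

theorem row_le {m T : ℕ} (f : Fin m → Fin (T + 1)) (i : Fin m) :
    ∑ j : Fin m, ‖(vm f)⁻¹ i j‖ ≤ cst m T := by
  unfold cst
  refine le_trans (Finset.single_le_sum (f := fun i => ∑ j : Fin m, ‖(vm f)⁻¹ i j‖)
    (fun _ _ => Finset.sum_nonneg fun _ _ => norm_nonneg _) (Finset.mem_univ i)) ?_
  exact Finset.single_le_sum (f := fun f : Fin m → Fin (T + 1) =>
      ∑ i : Fin m, ∑ j : Fin m, ‖(vm f)⁻¹ i j‖)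
    (fun _ _ => Finset.sum_nonneg fun _ _ => Finset.sum_nonneg fun _ _ => norm_nonneg _)
    (Finset.mem_univ f)

theorem cst_nonneg (m T : ℕ) : 0 ≤ cst m T :=
  Finset.sum_nonneg fun _ _ => Finset.sum_nonneg fun _ _ => Finset.sum_nonneg fun _ _ =>
    norm_nonneg _

open Classical in
/-- the bad values -/
noncomputable def bad (m T : ℕ) (v : Fin m → ℂ) : Finset (Fin (T + 1)) :=
  Finset.univ.filter fun t => ∃ i, ‖∑ r, v r * ((t : ℕ) : ℂ) ^ (r : ℕ)‖ < (1 + cst m T)⁻¹ * ‖v i‖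

theorem card_bad (m T : ℕ) (hm : 0 < m) (v : Fin m → ℂ) : (bad m T v).card < m := by
  classical
  by_contra hcon
  push Not at hcon
  obtain ⟨s, hs, hcard⟩ := Finset.exists_subset_card_eq hcon
  have e := s.equivFinOfCardEq hcard
  set f : Fin m → Fin (T + 1) := fun j => ((e.symm j : s) : Fin (T + 1)) with hf
  have hinj : Function.Injective fun j => (((f j : Fin (T + 1)) : ℕ) : ℂ) := by
    intro a b hab
    have hab' : (((f a : Fin (T + 1)) : ℕ) : ℂ) = (((f b : Fin (T + 1)) : ℕ) : ℂ) := hab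
    have h1 : ((f a : Fin (T + 1)) : ℕ) = (f b : Fin (T + 1)) := by exact_mod_cast hab'
    have h2 : f a = f b := Fin.ext h1
    exact e.symm.injective (Subtype.ext h2)
  have hdet : (vm f).det ≠ 0 := Matrix.det_vandermonde_ne_zero_iff.2 hinj
  have : Nonempty (Fin m) := ⟨⟨0, hm⟩⟩
  obtain ⟨i, hi⟩ := Finite.exists_max fun i => ‖v i‖
  set P : Fin m → ℂ := (vm f).mulVec v with hP
  have hv : (vm f)⁻¹.mulVec P = v := by
    rw [hP, Matrix.mulVec_mulVec, Matrix.nonsing_inv_mul _ (isUnit_iff_ne_zero.2 hdet),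
      Matrix.one_mulVec]
  have hPj : ∀ j, ‖P j‖ < (1 + cst m T)⁻¹ * ‖v i‖ := by
    intro j
    have h1 : f j ∈ bad m T v := hs (e.symm j).2
    obtain ⟨i', hi'⟩ := (Finset.mem_filter.1 h1).2
    have h2 : P j = ∑ r, v r * (((f j : Fin (T + 1)) : ℕ) : ℂ) ^ (r : ℕ) := by
      rw [hP]
      change ∑ r, vm f j r * v r = _
      refine Finset.sum_congr rfl fun r _ => ?_
      rw [mul_comm]
      unfold vm
      rw [Matrix.vandermonde_apply]
    rw [h2]
    refine hi'.trans_le ?_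
    exact mul_le_mul_of_nonneg_left (hi i') (inv_nonneg.2 (by linarith [cst_nonneg m T]))
  have hc := cst_nonneg m T
  have hpos : 0 < ‖v i‖ := by
    have h1 := (norm_nonneg _).trans_lt (hPj ⟨0, hm⟩)
    by_contra h2
    have h3 : ‖v i‖ = 0 := le_antisymm (not_lt.1 h2) (norm_nonneg _)
    rw [h3, mul_zero] at h1
    exact lt_irrefl _ h1
  have h5 : ‖v i‖ ≤ cst m T * ((1 + cst m T)⁻¹ * ‖v i‖) := by
    calc ‖v i‖ = ‖(vm f)⁻¹.mulVec P i‖ := by rw [hv]
      _ = ‖∑ j, (vm f)⁻¹ i j * P j‖ := rfl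
      _ ≤ ∑ j, ‖(vm f)⁻¹ i j‖ * ‖P j‖ := (norm_sum_le _ _).trans_eq (by simp)
      _ ≤ ∑ j, ‖(vm f)⁻¹ i j‖ * ((1 + cst m T)⁻¹ * ‖v i‖) :=
        Finset.sum_le_sum fun j _ => mul_le_mul_of_nonneg_left (hPj j).le (norm_nonneg _)
      _ = (∑ j, ‖(vm f)⁻¹ i j‖) * ((1 + cst m T)⁻¹ * ‖v i‖) := by rw [Finset.sum_mul]
      _ ≤ _ := mul_le_mul_of_nonneg_right (row_le f i) (by positivity)
  have h6 : cst m T * ((1 + cst m T)⁻¹ * ‖v i‖) < ‖v i‖ := by
    have h7 : cst m T * (1 + cst m T)⁻¹ < 1 := by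
      rw [← div_eq_mul_inv, div_lt_one (by linarith)]
      linarith
    calc cst m T * ((1 + cst m T)⁻¹ * ‖v i‖) = cst m T * (1 + cst m T)⁻¹ * ‖v i‖ := by ring
      _ < 1 * ‖v i‖ := mul_lt_mul_of_pos_right h7 hpos
      _ = ‖v i‖ := one_mul _
  exact absurd (h5.trans_lt h6) (lt_irrefl _)

/-- (LIN) a combination which is large at several places. -/
theorem pf_LIN : T_LIN := by
  classical
  intro m n
  rcases Nat.eq_zero_or_pos m with hm | hm
  · subst hm
    exact ⟨0, 1, one_pos, fun v => ⟨0, le_refl _, fun k i => i.elim0⟩⟩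
  refine ⟨n * m, (1 + cst m (n * m))⁻¹, inv_pos.2 (by linarith [cst_nonneg m (n * m)]),
    fun v => ?_⟩
  have hlt : (Finset.univ.biUnion fun k => bad m (n * m) (v k)).card <
      (Finset.univ : Finset (Fin (n * m + 1))).card := by
    refine lt_of_le_of_lt Finset.card_biUnion_le ?_
    rw [Finset.card_univ, Fintype.card_fin]
    refine lt_of_le_of_lt (Finset.sum_le_sum fun k _ => (card_bad m (n * m) hm (v k)).le) ?_
    simp
  obtain ⟨t, -, ht⟩ := Finset.exists_mem_notMem_of_card_lt_card hlt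
  refine ⟨t, Nat.lt_succ_iff.1 t.2, fun k i => ?_⟩
  by_contra hcon
  push Not at hcon
  refine ht (Finset.mem_biUnion.2 ⟨k, Finset.mem_univ k, ?_⟩)
  exact Finset.mem_filter.2 ⟨Finset.mem_univ _, i, hcon⟩

end Pool.Agent.H47.RK
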